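import Pool.Agent.Lib.MP_ff7426_co.K2.Bridge

/-!
MP_ff7426_co: Q1 for union-closed families in which every element lies in at most two generators.
-/

set_option autoImplicit false

namespace Pool.Agent.Results.MP_ff7426_co.DegreeTwo

open Pool.Agent.Lib.MP_ff7426_co.U3 (Irr)

theorem result {α : Type*} [DecidableEq α] (F : Finset (Finset α))
    (hU : ∀ A ∈ F, ∀ B ∈ F, A ∪ B ∈ F)
    (h2 : ∀ (y : α) (A B C : Finset α), Irr F A → Irr F B → Irr F C → y ∈ A → y ∈ B → y ∈ C →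
      A = B ∨ A = C ∨ B = C)
    (x : α) (A : Finset α) (hA : A ∈ F) (hne : A.Nonempty) (hxA : x ∉ A) :
    ∃ y : α, y ≠ x ∧ F.card ≤ 2 * (F.filter (fun B => y ∈ B)).card :=
  Pool.Agent.Lib.MP_ff7426_co.K2.core F hU h2 x A hA hne hxA

end Pool.Agent.Results.MP_ff7426_co.DegreeTwo
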