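import Pool.Agent.Lib.MP_ff7426_co.H59.Main

/-!
MP_ff7426_co: every union-closed family `F` with `|F| ≥ (3/4) 2^|U(F)|` satisfies Q1, and has at
least two half-frequent elements if `|U(F)| ≥ 3` (helper59).
-/

set_option autoImplicit false

namespace Pool.Agent.Results.MP_ff7426_co.DenseFamilies

open Pool.Agent.Lib.MP_ff7426_co.H59

theorem result {α : Type*} [DecidableEq α] (F : Finset (Finset α))
    (hU : ∀ A ∈ F, ∀ B ∈ F, A ∪ B ∈ F)
    (hd : 3 * 2 ^ (F.sup id).card ≤ 4 * F.card) :
    (3 ≤ (F.sup id).card →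
      ∃ x ∈ F.sup id, ∃ y ∈ F.sup id, x ≠ y ∧
        F.card ≤ 2 * (F.filter (fun A => x ∈ A)).card ∧
        F.card ≤ 2 * (F.filter (fun A => y ∈ A)).card) ∧
    (∀ x : α, (∀ y : α, (F.card ≤ 2 * (F.filter (fun A => y ∈ A)).card ↔ y = x)) →
      ∀ A ∈ F, A.Nonempty → x ∈ A) := by
  classical
  have hsub : F ⊆ (F.sup id).powerset := by
    intro A hA
    rw [Finset.mem_powerset]
    exact Finset.le_sup (f := id) hA
  have h1 : 3 ≤ (F.sup id).card →
      ∃ x ∈ F.sup id, ∃ y ∈ F.sup id, x ≠ y ∧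
        F.card ≤ 2 * (F.filter (fun A => x ∈ A)).card ∧
        F.card ≤ 2 * (F.filter (fun A => y ∈ A)).card := by
    intro hn
    by_contra hcon
    push Not at hcon
    have hex : ∃ x ∈ F.sup id, ∀ y ∈ F.sup id, y ≠ x →
        2 * (F.filter (fun A => y ∈ A)).card < F.card := by
      by_cases h : ∃ x ∈ F.sup id, F.card ≤ 2 * (F.filter (fun A => x ∈ A)).card
      · obtain ⟨x, hx, hx2⟩ := h
        exact ⟨x, hx, fun y hy hyx => hcon x hx y hy (Ne.symm hyx) hx2⟩
      · push Not at h
        have hne : (F.sup id).Nonempty := by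
          rw [← Finset.card_pos]; omega
        obtain ⟨x, hx⟩ := hne
        exact ⟨x, hx, fun y hy _ => h y hy⟩
    obtain ⟨x, hx, hl⟩ := hex
    exact core (F.sup id) F hsub hU hn hd x hx hl
  refine ⟨h1, ?_⟩
  intro x hx A hA hAne
  rcases Nat.lt_or_ge (F.sup id).card 3 with hn | hn
  · by_contra hxA
    obtain ⟨v, hv⟩ := hAne
    have hvx : v ≠ x := fun h => hxA (h ▸ hv)
    have hFpos : 0 < F.card := Finset.card_pos.2 ⟨A, hA⟩
    have hxh := (hx x).2 rfl
    have hxpos : 0 < (F.filter (fun A => x ∈ A)).card := by omega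
    obtain ⟨B, hB⟩ := Finset.card_pos.1 hxpos
    rw [Finset.mem_filter] at hB
    have hxs : x ∈ F.sup id := Finset.mem_powerset.1 (hsub hB.1) hB.2
    have hvs : v ∈ F.sup id := Finset.mem_powerset.1 (hsub hA) hv
    have hAB := hU A hA B hB.1
    have hne : A ≠ A ∪ B := by
      intro h
      apply hxA
      rw [h]
      exact Finset.mem_union_right _ hB.2
    have h2 : 2 ≤ (F.filter (fun A => v ∈ A)).card := by
      have : ({A, A ∪ B} : Finset (Finset α)) ⊆ F.filter (fun A => v ∈ A) := by
        intro C hC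
        rw [Finset.mem_insert, Finset.mem_singleton] at hC
        rw [Finset.mem_filter]
        rcases hC with rfl | rfl
        · exact ⟨hA, hv⟩
        · exact ⟨hAB, Finset.mem_union_left _ hv⟩
      have h3 := Finset.card_le_card this
      rw [Finset.card_pair hne] at h3
      exact h3
    have h4 : F.card ≤ 4 := by
      have h5 := Finset.card_le_card hsub
      rw [Finset.card_powerset] at h5
      have h6 : 2 ^ (F.sup id).card ≤ 2 ^ 2 := Nat.pow_le_pow_right (by norm_num) (by omega)
      omega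
    have := (hx v).1 (by omega)
    exact hvx this
  · exfalso
    obtain ⟨u, _, v, _, huv, hu, hv⟩ := h1 hn
    exact huv (((hx u).1 hu).trans ((hx v).1 hv).symm)

end Pool.Agent.Results.MP_ff7426_co.DenseFamilies
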