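import Pool.Agent.Lib.MP_ff7426_co.U3.Frankl

/-!
MP_ff7426_co: Q1 for union-closed families generated by sets of size at most three, with its
consequence for the number of half-frequent elements of such families.
-/

set_option autoImplicit false

namespace Pool.Agent.Results.MP_ff7426_co.ThreeGenerated

open Pool.Agent.Lib.MP_ff7426_co.U3 (Irr)

theorem result {α : Type*} [DecidableEq α] (F : Finset (Finset α))
    (hU : ∀ A ∈ F, ∀ B ∈ F, A ∪ B ∈ F) :
    (∀ x : α,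
      (∀ A, Irr F A → x ∉ A → A.card ≤ 3) →
      (∀ A B, Irr F A → Irr F B → x ∈ A → x ∉ B → (A ∩ B).Nonempty → A.card ≤ 3) →
      (∀ y : α, (F.card ≤ 2 * (F.filter (fun A => y ∈ A)).card ↔ y = x)) →
      ∀ A ∈ F, A.Nonempty → x ∈ A) ∧
    ((∀ A, Irr F A → A.card ≤ 3) → (∃ A ∈ F, A.Nonempty) →
      ∃ u, F.card ≤ 2 * (F.filter (fun A => u ∈ A)).card ∧
        ((∀ A ∈ F, A.card ≠ 1) →
          ∃ v, v ≠ u ∧ F.card ≤ 2 * (F.filter (fun A => v ∈ A)).card)) :=
  ⟨fun x h1 h2 hx => Pool.Agent.Lib.MP_ff7426_co.U3.final F hU x h1 h2 hx,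
    fun h3 hne => Pool.Agent.Lib.MP_ff7426_co.U3.frankl F hU h3 hne⟩

end Pool.Agent.Results.MP_ff7426_co.ThreeGenerated
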