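import Pool.Agent.Lib.MP_ff7426_co.U3.Struct

/-!
MP_ff7426_co: the structural statement for union-closed families generated by sets of size at most
three.
-/

set_option autoImplicit false

namespace Pool.Agent.Results.MP_ff7426_co.ThreeStructure

open Pool.Agent.Lib.MP_ff7426_co.U3 (Irr)

theorem result {α : Type*} [DecidableEq α] (F : Finset (Finset α))
    (hU : ∀ A ∈ F, ∀ B ∈ F, A ∪ B ∈ F) (x : α) (h3 : ∀ A, Irr F A → A.card ≤ 3)
    (hx : ∀ y : α, (F.card ≤ 2 * (F.filter (fun A => y ∈ A)).card ↔ y = x))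
    (hM : 2 ≤ (F.sup id).card)
    (hsep : ∀ u ∈ F.sup id, ∀ v ∈ F.sup id, u ≠ v →
      ∃ A ∈ F, (u ∈ A ∧ v ∉ A) ∨ (v ∈ A ∧ u ∉ A)) :
    ∀ A : Finset α, A ∈ F ↔ A = ∅ ∨ (x ∈ A ∧ A ⊆ F.sup id) :=
  Pool.Agent.Lib.MP_ff7426_co.U3.struct F hU x h3 hx hM hsep

end Pool.Agent.Results.MP_ff7426_co.ThreeStructure
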